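import Pool.Agent.MP_ca0a54_nt.SC.Fin

namespace Pool.Agent.Results.MP_ca0a54_nt.EveryT

/-- For every `C` and every large `T`, two zeros of `ζ` with consecutive ordinates in `[T, 2T]`
are closer than `(1/2 - C / log T) 2π / log T`. -/
theorem result : ∀ C : ℝ, ∃ T₀ : ℝ, ∀ T : ℝ, T₀ ≤ T →
    ∃ ρ ρ' : ℂ, riemannZeta ρ = 0 ∧ riemannZeta ρ' = 0 ∧ T ≤ ρ.im ∧ ρ.im ≤ ρ'.im ∧
      ρ'.im ≤ 2 * T ∧ (ρ ≠ ρ' ∨ deriv riemannZeta ρ = 0) ∧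
      (∀ σ : ℂ, riemannZeta σ = 0 → ¬ (ρ.im < σ.im ∧ σ.im < ρ'.im)) ∧
      ρ'.im - ρ.im < (1 / 2 - C / Real.log T) * (2 * Real.pi / Real.log T) :=
  Pool.Agent.MP_ca0a54_nt.SC.every

end Pool.Agent.Results.MP_ca0a54_nt.EveryT
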