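import Pool.Agent.MP_ca0a54_nt.H29.Glue
import Pool.Agent.MP_ca0a54_nt.L0.Zeros

namespace Pool.Agent.Results.MP_ca0a54_nt.HalfGapProportion

/-- For every `ε > 0` there is `c > 0` such that for all large `T` either two distinct zeros of `ζ`
have the same ordinate in `[T, 2T]` (a gap `0`), or at least `c T log T` distinct ordinates in
`[T, 2T]` belong to a multiple zero or are followed by the next ordinate at distance less than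
`(1/2 + ε) 2π / log T`. -/
theorem result : ∀ ε : ℝ, 0 < ε → ∃ c : ℝ, 0 < c ∧ ∃ T₀ : ℝ, ∀ T : ℝ, T₀ ≤ T →
    (∃ ρ ρ' : ℂ, riemannZeta ρ = 0 ∧ riemannZeta ρ' = 0 ∧ ρ ≠ ρ' ∧ ρ.im = ρ'.im ∧
      T ≤ ρ.im ∧ ρ.im ≤ 2 * T) ∨
    ∃ G : Finset ℝ, c * T * Real.log T ≤ G.card ∧ ∀ γ ∈ G, ∃ ρ ρ' : ℂ,
      riemannZeta ρ = 0 ∧ riemannZeta ρ' = 0 ∧ ρ.im = γ ∧ T ≤ ρ.im ∧ ρ.im ≤ ρ'.im ∧
      ρ'.im ≤ 2 * T ∧ (ρ ≠ ρ' ∨ deriv riemannZeta ρ = 0) ∧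
      (∀ σ : ℂ, riemannZeta σ = 0 → ¬ (ρ.im < σ.im ∧ σ.im < ρ'.im)) ∧
      ρ'.im - ρ.im < (1 / 2 + ε) * (2 * Real.pi / Real.log T) := by
  intro ε hε
  obtain ⟨c, hc, T₀, h⟩ := Pool.Agent.MP_ca0a54_nt.H29.final ε hε
  refine ⟨c, hc, max T₀ 1, fun T hT => ?_⟩
  rcases h T ((le_max_left _ _).trans hT) with ⟨ρ, h0, h1, h2, h3⟩ | hG
  · have hT1 : (1 : ℝ) ≤ T := (le_max_right _ _).trans hT
    have him : ρ.im ≠ 0 := by
      intro h4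
      rw [h4] at h1
      linarith
    refine Or.inl ⟨ρ, 1 - (starRingEnd ℂ) ρ, h0,
      Pool.Agent.MP_ca0a54_nt.L0.Zeros.reflect h0 him, fun h4 => h3 ?_, by simp, h1, h2⟩
    have h5 := congrArg Complex.re h4
    simp only [Complex.sub_re, Complex.one_re, Complex.conj_re] at h5
    linarith
  · exact Or.inr hG

end Pool.Agent.Results.MP_ca0a54_nt.HalfGapProportion
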