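import Pool.Agent.MP_ca0a54_nt.P.Final
import Pool.Agent.MP_ca0a54_nt.P.ARI
import Pool.Agent.MP_ca0a54_nt.P.NUM

namespace Pool.Agent.Results.MP_ca0a54_nt.Proportion

/-- Let `γ` list the positive ordinates of the zeros of `ζ` in non-decreasing order with
multiplicity. For all large `T` at least `c T log T` consecutive gaps in `[T, 2T]` are smaller than
`0.54` times the mean spacing `2π / log T`. -/
theorem result : ∃ γ : ℕ → ℝ, Monotone γ ∧ (∀ n, 0 < γ n) ∧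
    (∀ x : ℝ, 0 < x → {n : ℕ | γ n = x}.encard =
      ((∑ᶠ ρ ∈ {ρ : ℂ | ρ.im = x}, analyticOrderNatAt riemannZeta ρ : ℕ) : ℕ∞)) ∧
    ∃ c : ℝ, 0 < c ∧ ∃ T₀ : ℝ, ∀ T : ℝ, T₀ ≤ T → ∃ S : Finset ℕ,
      c * T * Real.log T ≤ S.card ∧ ∀ n ∈ S, T ≤ γ n ∧ γ (n + 1) ≤ 2 * T ∧
        γ (n + 1) - γ n < 27 / 50 * (2 * Real.pi / Real.log T) := by
  obtain ⟨⟨γ, hγ⟩, c, hc, T₀, h⟩ := Pool.Agent.MP_ca0a54_nt.P.final_of
    Pool.Agent.MP_ca0a54_nt.P.ari 200 100 _ _ (27 / 50) _ _ Pool.Agent.MP_ca0a54_nt.P.num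
    (by norm_num) (by norm_num)
    (by push_cast; linarith [Real.pi_gt_d6]) (by linarith [Real.pi_gt_d2])
  exact ⟨γ, hγ.1, hγ.2.1, hγ.2.2, c, hc, T₀, fun T hT => h T hT γ hγ⟩

end Pool.Agent.Results.MP_ca0a54_nt.Proportion
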