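import Pool.Agent.MP_ca0a54_nt.H24.Glue

namespace Pool.Agent.Results.MP_ca0a54_nt.Rigidity

/-- For every `ε > 0` there is `δ > 0` such that for all large `T` either two zeros of `ζ` with
consecutive ordinates in `[T, 2T]` are closer than `(1/2 - δ) 2π / log T`, or, outside a set of at
most `ε T log T` ordinates, the normalized distance from an ordinate in `[T, 2T]` to the next one,
and to every later one within `1/ε` mean spacings, is within `ε` of a half-integer or integer. -/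
theorem result : ∀ ε : ℝ, 0 < ε → ∃ δ : ℝ, 0 < δ ∧ ∃ T₀ : ℝ, ∀ T : ℝ, T₀ ≤ T →
    (∃ ρ ρ' : ℂ, riemannZeta ρ = 0 ∧ riemannZeta ρ' = 0 ∧ T ≤ ρ.im ∧ ρ.im ≤ ρ'.im ∧
      ρ'.im ≤ 2 * T ∧ (ρ ≠ ρ' ∨ deriv riemannZeta ρ = 0) ∧
      (∀ σ : ℂ, riemannZeta σ = 0 → ¬ (ρ.im < σ.im ∧ σ.im < ρ'.im)) ∧
      ρ'.im - ρ.im < (1 / 2 - δ) * (2 * Real.pi / Real.log T)) ∨
    ∃ B : Finset ℝ, (B.card : ℝ) ≤ ε * T * Real.log T ∧
      ∀ ρ ρ' : ℂ, riemannZeta ρ = 0 → riemannZeta ρ' = 0 → T ≤ ρ.im → ρ.im ≤ ρ'.im →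
        ρ'.im ≤ 2 * T → ρ.im ∉ B →
        ((∀ σ : ℂ, riemannZeta σ = 0 → ¬ (ρ.im < σ.im ∧ σ.im < ρ'.im)) ∨
          ρ'.im - ρ.im ≤ ε⁻¹ * (2 * Real.pi / Real.log T)) →
        ∃ k : ℤ, |(ρ'.im - ρ.im) * Real.log ρ.im / (2 * Real.pi) - k / 2| < ε :=
  Pool.Agent.MP_ca0a54_nt.H24.final

end Pool.Agent.Results.MP_ca0a54_nt.Rigidity
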